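import Pool.Agent.NBT.StmtsC
import Pool.Agent.Helper27_NTS.NNG
import Pool.Agent.Helper10_PFJ.FMX

/-! NBT, row SPB: the vertices of the second member of a pair (helper38). -/

set_option autoImplicit false

open Matrix Filter Topology

namespace Pool.Agent.NBT.H38

open Pool.Agent.PFS Pool.Agent.PFJ Pool.Agent.NBT

theorem spb (hTbf : TbfStmt) (hPje : PjeStmt) (hPjf : PjfStmt) : SpbStmt := by
  intro n C Γ Γ₀ K T c h S W W' hW hW' hp i hi
  have hC : PCone C := h.cc.toPCone
  obtain ⟨-, t2, -, t4, -, t6, -, -, -, -, -, -, t13⟩ := hTbf n C Γ Γ₀ K T c h W hW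
  obtain ⟨p, hpI⟩ := hPje n C Γ Γ₀ K T c h W hW S
  obtain ⟨f1, f2, -⟩ := hPjf n C Γ Γ₀ K T c h W hW S p hpI
  have hpx := hp i hi p hpI
  have hWpes := h.pes W hW
  have hxL := (h.pes W' hW').2 i
  have hxC : W' i ∈ closure C := (h.pes W' hW').1.cl i
  have hpW : ∀ l ∈ S, p (W l) = W l := fun l hl => hpI.idB _ ((t6 l S).2 hl)
  have step : ∀ j ∈ S, j ≠ i → W' i ∈ BI C W (Finset.univ.erase j) := by
    intro j hj hji
    have hnot : (∑ m ∈ Finset.univ.erase j, W m) + W' i ∉ C := by
      intro hmem
      have hU := f2 _ hmem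
      obtain ⟨M, hM, hM2⟩ := hU.2.2 (W j) ((t6 j S).2 hj)
      have e1 : p ((∑ m ∈ Finset.univ.erase j, W m) + W' i) =
          (∑ m ∈ Finset.univ.erase j, (if m ∈ S then (1 : ℝ) else 0) • W m) + W i := by
        rw [map_add, map_sum, hpx]
        congr 1
        refine Finset.sum_congr rfl fun m _ => ?_
        by_cases hm : m ∈ S
        · rw [if_pos hm, one_smul, hpW m hm]
        · rw [if_neg hm, zero_smul, f1 m hm]
      rw [e1] at hM2
      have e2 : M • ((∑ m ∈ Finset.univ.erase j, (if m ∈ S then (1 : ℝ) else 0) • W m) + W i) -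
          W j = ∑ m, (if m = j then (-1 : ℝ) else M * (if m ∈ S then 1 else 0) +
            (if m = i then M else 0)) • W m := by
        rw [← Finset.add_sum_erase Finset.univ (fun m => (if m = j then (-1 : ℝ) else
          M * (if m ∈ S then 1 else 0) + (if m = i then M else 0)) • W m) (Finset.mem_univ j)]
        have e3 : ∑ m ∈ Finset.univ.erase j, (if m = j then (-1 : ℝ) else
            M * (if m ∈ S then 1 else 0) + (if m = i then M else 0)) • W m =
            M • (∑ m ∈ Finset.univ.erase j, (if m ∈ S then (1 : ℝ) else 0) • W m) +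
            M • W i := by
          have e4 : ∀ m ∈ Finset.univ.erase j, (if m = j then (-1 : ℝ) else
              M * (if m ∈ S then 1 else 0) + (if m = i then M else 0)) • W m =
              M • ((if m ∈ S then (1 : ℝ) else 0) • W m) + (if m = i then M • W m else 0) := by
            intro m hm
            rw [if_neg (Finset.ne_of_mem_erase hm), add_smul, mul_smul]
            congr 1
            split_ifs
            · rfl
            · rw [zero_smul]
          rw [Finset.sum_congr rfl e4, Finset.sum_add_distrib, ← Finset.smul_sum,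
            Finset.sum_ite_eq', if_pos (Finset.mem_erase.2 ⟨hji.symm, Finset.mem_univ i⟩)]
        rw [e3]
        simp only [if_true]
        rw [smul_add, neg_one_smul]
        abel
      rw [e2] at hM2
      have h3 := Pool.Agent.NTS.H27.nng n C hC (Fin K) W hWpes.1 _ hM2 j
      rw [if_pos rfl] at h3
      linarith
    obtain ⟨M, hM, hM2⟩ := Pool.Agent.PFJ.H10.fmx n C Γ h.cc K h.three h.maxc W j (W' i) hWpes hxL
      hnot
    exact t2 (Finset.univ.erase j) (W' i) hxC M hM2
  have key : ∀ R : Finset (Fin K), R ⊆ S.erase i → W' i ∈ BI C W Rᶜ := by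
    intro R
    induction R using Finset.induction_on with
    | empty =>
      intro _
      rw [Finset.compl_empty, t13]
      exact Submodule.mem_top
    | insert j R hjR ih =>
      intro hsub
      have h1 := ih ((Finset.subset_insert j R).trans hsub)
      have h2 := hsub (Finset.mem_insert_self j R)
      obtain ⟨h3, h4⟩ := Finset.mem_erase.1 h2
      have h5 := step j h4 h3
      have e : (insert j R)ᶜ = Finset.univ.erase j ∩ Rᶜ := by
        ext m
        simp only [Finset.mem_compl, Finset.mem_insert, Finset.mem_inter, Finset.mem_erase,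
          Finset.mem_univ, and_true]
        tauto
      rw [e, ← t4]
      exact ⟨h5, h1⟩
  have h6 := key (S.erase i) (Finset.Subset.refl _)
  rwa [Finset.compl_erase] at h6

end Pool.Agent.NBT.H38
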