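import Pool.Agent.NBT.StmtsA

/-! NBT, row TBF: basic facts (helper38). -/

set_option autoImplicit false

open Matrix Filter Topology

namespace Pool.Agent.NBT.H38

open Pool.Agent.PFS Pool.Agent.PFJ Pool.Agent.NBT

variable {n K : ℕ}

theorem rst_eq (w : Fin K → V n) (i j : Fin K) :
    Pool.Agent.NTW.rst w i j = fS w ({i, j} : Finset (Fin K))ᶜ := by
  unfold Pool.Agent.NTW.rst fS
  refine Finset.sum_congr ?_ fun _ _ => rfl
  ext m
  simp only [Finset.mem_erase, Finset.mem_univ, and_true, Finset.mem_compl, Finset.mem_insert,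
    Finset.mem_singleton, not_or]
  tauto

theorem sum_pair_coef (w : Fin K → V n) {i j : Fin K} (hij : i ≠ j) (a b : ℝ) :
    a • w i + b • w j = ∑ m, (if m = i then a else if m = j then b else 0) • w m := by
  rw [← Finset.sum_subset (Finset.subset_univ ({i, j} : Finset (Fin K)))]
  · rw [Finset.sum_pair hij, if_pos rfl, if_neg hij.symm, if_pos rfl]
  · intro m _ hm
    simp only [Finset.mem_insert, Finset.mem_singleton, not_or] at hm
    rw [if_neg hm.1, if_neg hm.2, zero_smul]

theorem tbf (hIbf : IbfStmt) : TbfStmt := by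
  intro n C Γ Γ₀ K T c h w hw
  have hC : PCone C := h.cc.toPCone
  obtain ⟨hpes, hlam⟩ := h.pes w hw
  have hwc : ∀ i, w i ∈ closure C := fun i => hpes.cl i
  have hf : ∀ I, fS w I ∈ closure C := fun I => fS_cl hC hwc I
  have hib := (hIbf n C hC K w hpes).1
  have hib2 := (hIbf n C hC K w hpes).2
  have b1 : ∀ I, Unt C (BI C w I) (fS w I) := fun I => (hib I _ (h.box w hw I)).1
  have b2 : ∀ I, ∀ y ∈ closure C, ∀ M : ℝ, M • fS w I - y ∈ closure C → y ∈ BI C w I :=
    fun I => (fcs n C hC (fS w I) (hf I)).2.1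
  have b3 : ∀ I, ∀ v ∈ BI C w I, ∀ r : Fin K → ℝ, v + ∑ m ∈ Iᶜ, r m • w m ∈ closure C →
      v ∈ closure C := fun I v hv r hr => ((hib I _ (h.box w hw I)).2.2.1 v hv r hr).1
  have b6 : ∀ i I, w i ∈ BI C w I ↔ i ∈ I := by
    intro i I
    constructor
    · intro hi
      by_contra hI
      obtain ⟨M, hM, h1⟩ := (b1 I).2.2 _ hi
      have e : M • fS w I - w i =
          ∑ m, ((if m ∈ I then M else 0) - (if m = i then 1 else 0)) • w m := by
        simp only [sub_smul, ite_smul, zero_smul, one_smul, Finset.sum_sub_distrib]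
        rw [Finset.sum_ite_mem, Finset.univ_inter, Finset.sum_ite_eq' Finset.univ i w,
          if_pos (Finset.mem_univ i)]
        unfold fS
        rw [Finset.smul_sum]
      rw [e] at h1
      have h2 := nng n C hC (Fin K) w hpes _ h1 i
      rw [if_neg hI, if_pos rfl] at h2
      linarith
    · intro hi
      refine b2 I (w i) (hwc i) 1 ?_
      unfold fS
      rw [one_smul, ← Finset.add_sum_erase I w hi, add_sub_cancel_left]
      exact hC.cl_sum fun m _ => hwc m
  have b5 : ∀ I J, I ⊆ J → BI C w I ≤ BI C w J := by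
    intro I J hIJ v hv
    obtain ⟨M, hM, h1, h2⟩ := unt_two hC (b1 I) hv
    have h3 : M • fS w (J \ I) ∈ closure C := hC.cl_smul (hf _) hM.le
    refine fce hC hwc (M := M) ?_ ?_
    · rw [← fS_add_sdiff w hIJ]
      have e : M • (fS w I + fS w (J \ I)) - v = (M • fS w I - v) + M • fS w (J \ I) := by
        rw [smul_add]; abel
      rw [e]
      exact hC.cl_add h1 h3
    · rw [← fS_add_sdiff w hIJ]
      have e : M • (fS w I + fS w (J \ I)) + v = (M • fS w I + v) + M • fS w (J \ I) := by
        rw [smul_add]; abel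
      rw [e]
      exact hC.cl_add h2 h3
  have b4 : ∀ I J, BI C w I ⊓ BI C w J = BI C w (I ∩ J) := by
    intro I J
    refine le_antisymm ?_ (le_inf (b5 _ _ Finset.inter_subset_left)
      (b5 _ _ Finset.inter_subset_right))
    rintro v ⟨hvI, hvJ⟩
    obtain ⟨M, hM, h1, h2⟩ := unt_two hC (b1 I) hvI
    have hfJ : fS w (I ∩ J) ∈ BI C w J := Submodule.sum_mem _ fun i hi =>
      (b6 i J).2 (Finset.mem_inter.1 hi).2
    have e0 : fS w I = fS w (I ∩ J) + fS w (I \ J) := by
      rw [← fS_add_sdiff w (Finset.inter_subset_left : I ∩ J ⊆ I), Finset.sdiff_inter_self_left]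
    have e1 : ∑ m ∈ Jᶜ, (if m ∈ I then M else 0) • w m = M • fS w (I \ J) := by
      simp only [ite_smul, zero_smul]
      rw [← Finset.sum_filter]
      unfold fS
      rw [Finset.smul_sum]
      refine Finset.sum_congr ?_ fun _ _ => rfl
      ext m
      simp only [Finset.mem_filter, Finset.mem_compl, Finset.mem_sdiff]
      tauto
    refine fce hC hwc (M := M) ?_ ?_
    · refine b3 J _ (Submodule.sub_mem _ (Submodule.smul_mem _ _ hfJ) hvJ)
        (fun m => if m ∈ I then M else 0) ?_
      rw [e1]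
      have e : M • fS w (I ∩ J) - v + M • fS w (I \ J) = M • fS w I - v := by
        rw [e0, smul_add]; abel
      rw [e]
      exact h1
    · refine b3 J _ (Submodule.add_mem _ (Submodule.smul_mem _ _ hfJ) hvJ)
        (fun m => if m ∈ I then M else 0) ?_
      rw [e1]
      have e : M • fS w (I ∩ J) + v + M • fS w (I \ J) = M • fS w I + v := by
        rw [e0, smul_add]; abel
      rw [e]
      exact h2
  have b7 : ∀ i, Ext C (w i) := exv n C Γ h.cc K (by have := h.three; omega) h.maxc w (h.pes w hw)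
  have b8 : ∀ i, ∀ x ∈ BI C w {i}, ∃ a : ℝ, x = a • w i := by
    intro i x hx
    obtain ⟨M, hM, h1, h2⟩ := unt_two hC (b1 {i}) hx
    rw [fS_single] at h1 h2
    have e : (2 * M) • w i - (M • w i + x) = M • w i - x := by module
    obtain ⟨a, ha⟩ := b7 i _ h2 (2 * M) (by rw [e]; exact h1)
    exact ⟨a - M, by rw [sub_smul, ← ha]; abel⟩
  have hsp : ∀ i j : Fin K, Submodule.span ℝ (w '' (({i, j} : Finset (Fin K)) : Set (Fin K))) ≤
      BI C w {i, j} := fun i j => (hib _ _ (hib2 {i, j}).1).2.1
  have hfr : ∀ i j : Fin K, i ≠ j →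
      Module.finrank ℝ (Submodule.span ℝ (w '' (({i, j} : Finset (Fin K)) : Set (Fin K)))) = 2 := by
    intro i j hij
    rw [(hib2 {i, j}).2, Finset.card_pair hij]
  have b9 : ∀ i j, i ≠ j → 2 ≤ c {i, j} := by
    intro i j hij
    rw [← h.dim w hw, ← hfr i j hij]
    exact Submodule.finrank_mono (hsp i j)
  have b10 : ∀ i j, i ≠ j → c {i, j} ≤ 2 → ∀ x ∈ BI C w {i, j},
      ∃ a b : ℝ, x = a • w i + b • w j := by
    intro i j hij hc x hx
    have e := Submodule.eq_of_le_of_finrank_le (hsp i j) (by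
      rw [h.dim w hw, hfr i j hij]; exact hc)
    rw [← e, Finset.coe_pair, Set.image_pair, Submodule.mem_span_pair] at hx
    obtain ⟨a, b, hab⟩ := hx
    exact ⟨a, b, hab.symm⟩
  have b11 : ∀ i j, i ≠ j → ∀ x ∈ BI C w {i, j}, ∀ y ∈ BI C w {i, j}, x ∈ closure C →
      y ∈ closure C → Ind2 x y → Unt C (BI C w {i, j}) (x + y) := by
    intro i j hij x hx y hy hxc hyc hxy
    rcases Nat.lt_or_ge (c {i, j}) 3 with h3 | h3
    · obtain ⟨a, b, hab⟩ := b10 i j hij (by omega) x hx
      obtain ⟨a', b', hab'⟩ := b10 i j hij (by omega) y hy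
      have nn : ∀ a b : ℝ, a • w i + b • w j ∈ closure C → 0 ≤ a ∧ 0 ≤ b := by
        intro a b hm
        rw [sum_pair_coef w hij] at hm
        have h1 := nng n C hC (Fin K) w hpes _ hm
        have h2 := h1 i
        have h4 := h1 j
        rw [if_pos rfl] at h2
        rw [if_neg hij.symm, if_pos rfl] at h4
        exact ⟨h2, h4⟩
      obtain ⟨ha, hb⟩ := nn a b (hab ▸ hxc)
      obtain ⟨ha', hb'⟩ := nn a' b' (hab' ▸ hyc)
      have hpa : 0 < a + a' := by
        rcases (add_nonneg ha ha').lt_or_eq with h4 | h4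
        · exact h4
        · exfalso
          have h5 : a = 0 := by linarith
          have h6 : a' = 0 := by linarith
          subst h5 h6
          have h7 := hxy b' (-b) (by rw [hab, hab']; module)
          have h8 : b = 0 := by linarith [h7.2]
          have h9 := hxy 1 0 (by rw [hab, h8]; module)
          exact one_ne_zero h9.1
      have hpb : 0 < b + b' := by
        rcases (add_nonneg hb hb').lt_or_eq with h4 | h4
        · exact h4
        · exfalso
          have h5 : b = 0 := by linarith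
          have h6 : b' = 0 := by linarith
          subst h5 h6
          have h7 := hxy a' (-a) (by rw [hab, hab']; module)
          have h8 : a = 0 := by linarith [h7.2]
          have h9 := hxy 1 0 (by rw [hab, h8]; module)
          exact one_ne_zero h9.1
      set ε := min (a + a') (b + b') with hε
      have hε0 : 0 < ε := lt_min hpa hpb
      have hu := (Pool.Agent.PFJ.H76.unf n C hC _ _ (b1 {i, j})).1 ε hε0
      refine (Pool.Agent.PFJ.H76.unf n C hC _ _ hu).2.1 (x + y) (Submodule.add_mem _ hx hy) ?_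
      have e : x + y - ε • fS w {i, j} = (a + a' - ε) • w i + (b + b' - ε) • w j := by
        rw [fS_pair w hij, hab, hab']; module
      rw [e]
      exact hC.cl_add (hC.cl_smul (hwc i) (by linarith [min_le_left (a + a') (b + b')]))
        (hC.cl_smul (hwc j) (by linarith [min_le_right (a + a') (b + b')]))
    · refine bxt n C Γ h.cc K h.three h.maxc w (h.pes w hw) i j hij (BI C w {i, j})
        ⟨(b6 i _).2 (by simp), (b6 j _).2 (by simp), fun v hv hv2 => ?_⟩ (by
          rw [h.dim w hw]; exact h3) x hx y hy hxc hyc hxy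
      rw [rst_eq] at hv2
      exact (h.box w hw {i, j}).box v hv hv2
  refine ⟨b1, b2, b3, b4, b5, b6, b7, b8, b9, b10, b11, ?_, ?_⟩
  · rw [eq_bot_iff]
    intro v hv
    obtain ⟨M, hM, h1, h2⟩ := unt_two hC (b1 ∅) hv
    have e : fS w ∅ = 0 := Finset.sum_empty
    rw [e, smul_zero, zero_sub] at h1
    rw [e, smul_zero, zero_add] at h2
    exact (Submodule.mem_bot ℝ).2 (hC.salient v h2 h1)
  · rw [eq_top_iff]
    intro v _
    obtain ⟨M, hM, h1, h2⟩ := absorb_two hC hpes.sum_mem v
    exact fce hC hwc (M := M) (subset_closure h1) (subset_closure h2)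

end Pool.Agent.NBT.H38
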